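import Pool.Agent.Helper2.EG.Stmts

/-!
MP_861132_nt, module GABC: the conclusions for the patterns (97, 53), (41, 409), (373, 73).
-/

set_option autoImplicit false

namespace Pool.Agent.Helper2.EG

theorem gabc_iter {m x y : ℕ} (h : x ≡ y [MOD m]) (t : ℕ) : fA^[t] x ≡ fA^[t] y [MOD m] := by
  induction t with
  | zero => exact h
  | succ t ih =>
    rw [Function.iterate_succ_apply', Function.iterate_succ_apply']
    exact Nat.ModEq.mul ih (Nat.ModEq.add_right 1 ih)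

theorem gabc_all (hCRT : ST_CRT) (hAMOD : ST_AMOD) {c u τ τ1 τ2 : ℕ} (hc : 0 < c) (hu : 0 < u)
    (hcu : c.Coprime u) (h1 : All c τ1) (h2 : All u τ2) (e1 : τ1 ≡ τ [MOD c])
    (e2 : τ2 ≡ τ [MOD u]) : All (c * u) τ :=
  hCRT c u τ hc hu hcu (hAMOD c τ1 τ e1 h1) (hAMOD u τ2 τ e2 h2)

theorem gabc_gen (hB : Base) (hTP : ST_TP) {n c u L X a σ : ℕ} (τ : ℕ → ℕ) (hn : 500 ≤ n)
    (hc : 1 < c) (hu : 1 < u) (hc4 : c ≤ 4000) (hu4 : u ≤ 4000) (hcu : c.Coprime u) (hL : 0 < L)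
    (hX1 : c ∣ X ^ 2 + u) (hX2 : u ∣ (X * (X + c)) ^ 2 + c) (hX3 : fA^[L] X ≡ X [MOD c * u])
    (hτ : ∀ t, t < L → All (c * u) (τ t) ∧ fA^[t] (τ t) ≡ X [MOD c * u])
    (hσ : All (c * u) σ) (ha : 1 < a) (ha4 : a < 4000) (hau : a ∣ c * u) (haσ : a ∣ σ ^ 2 + 1)
    (hnc : n.Coprime (c * u)) (hT : Typ (c * u) n) : Good n := by
  obtain ⟨hMV, hLV, hHIT⟩ := hB
  have hn0 : 0 < n := by omega
  have hm0 : 0 < c * u := by positivity
  have hit : ∀ ρ, All (c * u) ρ → ∃ P, Lv n 3 P ∧ P ≡ ρ [MOD c * u] := fun ρ hρ =>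
    hHIT (c * u) n ρ hm0 hn0 hT (hρ n hnc)
  have hbig : ∀ P, Lv n 3 P → 4000 ≤ P := by
    intro P hP
    have := hLV.2.2.1 n 3 P 1 P hn0 hP
    omega
  refine hTP n c u L X hn0 (hMV n hn0) (by omega) hu hcu hL hX1 hX2 hX3 ?_ ?_
  · intro t ht
    obtain ⟨hA, hE⟩ := hτ t ht
    obtain ⟨P, hP, hPm⟩ := hit _ hA
    have := hbig P hP
    exact ⟨P, hP, by omega, by omega, (gabc_iter hPm t).trans hE⟩
  · obtain ⟨P, hP, hPm⟩ := hit σ hσ
    have hP4 := hbig P hP
    have hPa : P ≡ σ [MOD a] := Nat.ModEq.of_dvd hau hPm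
    have hdvd : a ∣ P ^ 2 + 1 := by
      have h1 : P ^ 2 + 1 ≡ σ ^ 2 + 1 [MOD a] := Nat.ModEq.add_right 1 (hPa.pow 2)
      exact (Nat.modEq_zero_iff_dvd.mp (h1.trans (Nat.modEq_zero_iff_dvd.mpr haσ)))
    obtain ⟨b, hb⟩ := hdvd
    refine ⟨P, a, b, hP, ha, ?_, hb.symm⟩
    by_contra hle
    rw [not_lt] at hle
    have h1 : a * b ≤ a * a := Nat.mul_le_mul_left a hle
    have h2 : a * a ≤ P * P := Nat.mul_le_mul (by omega) (by omega)
    have h3 : P ^ 2 = P * P := by ring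
    omega

theorem gabc_cop {n p q : ℕ} (hp : p.Prime) (hq : q.Prime) (h1 : ¬ p ∣ n) (h2 : ¬ q ∣ n) :
    n.Coprime (p * q) :=
  Nat.Coprime.mul_right ((hp.coprime_iff_not_dvd.mpr h1).symm) ((hq.coprime_iff_not_dvd.mpr h2).symm)

theorem st_GA : ST_GA := by
  intro hB hTP hCRT hAMOD hc hu n hn h1 h2 hT
  have hcu : Nat.Coprime 97 53 := by norm_num
  have al : ∀ {τ τ1 τ2 : ℕ}, All 97 τ1 → All 53 τ2 → τ1 ≡ τ [MOD 97] → τ2 ≡ τ [MOD 53] →
      All (97 * 53) τ := fun ha hb e1 e2 =>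
    gabc_all hCRT hAMOD (by norm_num) (by norm_num) hcu ha hb e1 e2
  refine gabc_gen (c := 97) (u := 53) (L := 2) (X := 559) (a := 97) (σ := 1089) hB hTP
    (fun t => if t = 0 then 559 else 4580) hn (by norm_num) (by norm_num) (by norm_num)
    (by norm_num) hcu (by norm_num) (by norm_num) (by norm_num)
    (by norm_num [fA, Nat.ModEq, Function.iterate_succ]) ?_
    (al hc.2.2 hu.1 (by decide) (by decide)) (by norm_num) (by norm_num) (by norm_num)
    (by norm_num) (gabc_cop (by norm_num) (by norm_num) h1 h2) (by norm_num; exact hT)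
  intro t ht
  interval_cases t
  · exact ⟨al hc.1 hu.1 (by decide) (by decide), by
      norm_num [fA, Nat.ModEq, Function.iterate_succ]⟩
  · exact ⟨al hc.2.1 hu.2 (by decide) (by decide), by
      norm_num [fA, Nat.ModEq, Function.iterate_succ]⟩

theorem st_GB : ST_GB := by
  intro hB hTP hCRT hAMOD hc hu n hn h1 h2 hT
  have hcu : Nat.Coprime 41 409 := by norm_num
  have al : ∀ {τ τ1 τ2 : ℕ}, All 41 τ1 → All 409 τ2 → τ1 ≡ τ [MOD 41] → τ2 ≡ τ [MOD 409] →
      All (41 * 409) τ := fun ha hb e1 e2 =>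
    gabc_all hCRT hAMOD (by norm_num) (by norm_num) hcu ha hb e1 e2
  refine gabc_gen (c := 41) (u := 409) (L := 3) (X := 4921) (a := 41) (σ := 1649) hB hTP
    (fun t => if t = 0 then 4921 else if t = 1 then 3040 else 6726) hn (by norm_num) (by norm_num)
    (by norm_num) (by norm_num) hcu (by norm_num) (by norm_num) (by norm_num)
    (by norm_num [fA, Nat.ModEq, Function.iterate_succ]) ?_
    (al hc.2.2.2 hu.1 (by decide) (by decide)) (by norm_num) (by norm_num) (by norm_num)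
    (by norm_num) (gabc_cop (by norm_num) (by norm_num) h1 h2) (by norm_num; exact hT)
  intro t ht
  interval_cases t
  · exact ⟨al hc.1 hu.1 (by decide) (by decide), by
      norm_num [fA, Nat.ModEq, Function.iterate_succ]⟩
  · exact ⟨al hc.2.2.1 hu.2.2 (by decide) (by decide), by
      norm_num [fA, Nat.ModEq, Function.iterate_succ]⟩
  · exact ⟨al hc.2.1 hu.2.1 (by decide) (by decide), by
      norm_num [fA, Nat.ModEq, Function.iterate_succ]⟩

theorem st_GC : ST_GC := by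
  intro hB hTP hCRT hAMOD hc hu n hn h1 h2 hT
  have hcu : Nat.Coprime 373 73 := by norm_num
  have al : ∀ {τ τ1 τ2 : ℕ}, All 373 τ1 → All 73 τ2 → τ1 ≡ τ [MOD 373] → τ2 ≡ τ [MOD 73] →
      All (373 * 73) τ := fun ha hb e1 e2 =>
    gabc_all hCRT hAMOD (by norm_num) (by norm_num) hcu ha hb e1 e2
  refine gabc_gen (c := 373) (u := 73) (L := 4) (X := 24427) (a := 73) (σ := 3166) hB hTP
    (fun t => if t = 0 then 24427 else if t = 1 then 1851 else if t = 2 then 3038 else 6450) hn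
    (by norm_num) (by norm_num)
    (by norm_num) (by norm_num) hcu (by norm_num) (by norm_num) (by norm_num)
    (by norm_num [fA, Nat.ModEq, Function.iterate_succ]) ?_
    (al hc.1 hu.2.2 (by decide) (by decide)) (by norm_num) (by norm_num) (by norm_num)
    (by norm_num) (gabc_cop (by norm_num) (by norm_num) h1 h2) (by norm_num; exact hT)
  intro t ht
  interval_cases t
  · exact ⟨al hc.1 hu.1 (by decide) (by decide), by
      norm_num [fA, Nat.ModEq, Function.iterate_succ]⟩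
  · exact ⟨al hc.2.2.2 hu.2.1 (by decide) (by decide), by
      norm_num [fA, Nat.ModEq, Function.iterate_succ]⟩
  · exact ⟨al hc.2.2.1 hu.1 (by decide) (by decide), by
      norm_num [fA, Nat.ModEq, Function.iterate_succ]⟩
  · exact ⟨al hc.2.1 hu.2.1 (by decide) (by decide), by
      norm_num [fA, Nat.ModEq, Function.iterate_succ]⟩

end Pool.Agent.Helper2.EG
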