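import Pool.Agent.Helper2.EG.Stmts

/-!
MP_861132_nt, module TERM: a solution which is not a standard prolongation gives strict growth.
-/

set_option autoImplicit false

namespace Pool.Agent.Helper2.EG

theorem term_strict {s : ℕ} (x : Fin s → ℕ) (a : ℕ) (hx : StrictMono x) (ha : ∀ i, x i < a) :
    StrictMono (Fin.snoc x a : Fin (s + 1) → ℕ) := by
  intro i j hij
  induction j using Fin.lastCases with
  | last =>
    induction i using Fin.lastCases with
    | last => exact absurd hij (lt_irrefl _)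
    | cast i =>
      simp only [Fin.snoc_castSucc, Fin.snoc_last]
      exact ha i
  | cast j =>
    induction i using Fin.lastCases with
    | last => exact absurd hij (not_lt.mpr (Fin.le_last _))
    | cast i =>
      simp only [Fin.snoc_castSucc]
      exact hx (Fin.castSucc_lt_castSucc_iff.mp hij)

theorem term_one {s : ℕ} (x : Fin s → ℕ) (a : ℕ) (hx : ∀ i, 1 < x i) (ha : 1 < a) :
    ∀ i, 1 < (Fin.snoc x a : Fin (s + 1) → ℕ) i := by
  intro i
  induction i using Fin.lastCases with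
  | last => simpa only [Fin.snoc_last] using ha
  | cast i => simpa only [Fin.snoc_castSucc] using hx i

theorem term_sum {s : ℕ} (x : Fin s → ℕ) (a : ℕ) :
    ∑ i, (1 : ℚ) / (((Fin.snoc x a : Fin (s + 1) → ℕ) i : ℕ) : ℚ)
      = ∑ i, (1 : ℚ) / (x i : ℚ) + 1 / (a : ℚ) := by
  rw [Fin.sum_univ_castSucc]
  simp only [Fin.snoc_castSucc, Fin.snoc_last]

theorem term_prod {s : ℕ} (x : Fin s → ℕ) (a : ℕ) :
    ∏ i, (((Fin.snoc x a : Fin (s + 1) → ℕ) i : ℕ) : ℚ) = (∏ i, (x i : ℚ)) * (a : ℚ) := by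
  rw [Fin.prod_univ_castSucc]
  simp only [Fin.snoc_castSucc, Fin.snoc_last]

/-- the standard prolongation -/
theorem term_mem {n s : ℕ} (hn : 0 < n) {x : Fin s → ℕ} (hx : x ∈ Sol n s) :
    (Fin.snoc x (n * ∏ i, x i + 1) : Fin (s + 1) → ℕ) ∈ Sol n (s + 1) := by
  obtain ⟨h1, h2, h3⟩ := hx
  have hpos : 0 < ∏ i, x i := Finset.prod_pos (fun i _ => lt_trans Nat.zero_lt_one (h2 i))
  have hle : ∀ i, x i ≤ ∏ j, x j := fun i =>
    Nat.le_of_dvd hpos (Finset.dvd_prod_of_mem x (Finset.mem_univ i))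
  have hle2 : ∏ j, x j ≤ n * ∏ j, x j := Nat.le_mul_of_pos_left _ hn
  refine ⟨term_strict x _ h1 (fun i => ?_), term_one x _ h2 ?_, ?_⟩
  · exact Nat.lt_succ_of_le (le_trans (hle i) hle2)
  · exact Nat.succ_lt_succ (Nat.mul_pos hn hpos)
  · rw [term_sum, term_prod]
    have hP : (0 : ℚ) < (n : ℚ) * ∏ i, (x i : ℚ) := by
      have : 0 < n * ∏ i, x i := Nat.mul_pos hn hpos
      exact_mod_cast this
    have hc : ((n * ∏ i, x i + 1 : ℕ) : ℚ) = (n : ℚ) * ∏ i, (x i : ℚ) + 1 := by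
      push_cast
      ring
    rw [hc, ← mul_assoc]
    set P : ℚ := (n : ℚ) * ∏ i, (x i : ℚ) with hPd
    have hP1 : P ≠ 0 := ne_of_gt hP
    have hP2 : P + 1 ≠ 0 := by positivity
    have h4 : 1 / (P + 1) + 1 / (P * (P + 1)) = 1 / P := by
      field_simp
    linarith [h3, h4]

theorem st_TERM : ST_TERM := by
  intro hfin n s Q c m y hn hSt hmy hy hc hcy
  obtain ⟨x, h1, h2, h3, h4⟩ := hSt
  have hpos : 0 < ∏ i, x i :=
    Finset.prod_pos (fun i _ => lt_trans Nat.zero_lt_one (h2 i).1)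
  have hQ : 0 < Q := by
    rw [← h3]
    exact Nat.mul_pos hn hpos
  have hyQ : y < Q + 1 := by
    rw [← hcy]
    exact (Nat.lt_mul_iff_one_lt_left (lt_trans Nat.zero_lt_one hy)).mpr hc
  have hinj : Function.Injective
      (fun x : Fin s → ℕ => (Fin.snoc x (n * ∏ i, x i + 1) : Fin (s + 1) → ℕ)) := by
    intro a b hab
    funext i
    have := congrFun hab (Fin.castSucc i)
    simpa only [Fin.snoc_castSucc] using this
  have hmem : (Fin.snoc x y : Fin (s + 1) → ℕ) ∈ Sol n (s + 1) := by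
    refine ⟨term_strict x _ h1 (fun i => lt_of_le_of_lt (h2 i).2 hmy),
      term_one x _ (fun i => (h2 i).1) hy, ?_⟩
    rw [term_sum, term_prod, h4, ← mul_assoc]
    have hQc : (n : ℚ) * ∏ i, (x i : ℚ) = (Q : ℚ) := by
      rw [← h3]
      push_cast
      rfl
    rw [hQc]
    have hQ0 : (Q : ℚ) ≠ 0 := by exact_mod_cast hQ.ne'
    have hy0 : (y : ℚ) ≠ 0 := by
      have : y ≠ 0 := by omega
      exact_mod_cast this
    have hcyq : (c : ℚ) * (y : ℚ) = (Q : ℚ) + 1 := by exact_mod_cast hcy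
    have h5 : 1 / (y : ℚ) + 1 / ((Q : ℚ) * (y : ℚ)) = (c : ℚ) / (Q : ℚ) := by
      rw [div_add_div _ _ hy0 (mul_ne_zero hQ0 hy0), div_eq_div_iff
        (mul_ne_zero hy0 (mul_ne_zero hQ0 hy0)) hQ0]
      linear_combination (-(Q : ℚ) * (y : ℚ)) * hcyq
    linarith [h5]
  unfold Om
  rw [← Set.ncard_image_of_injective (Sol n s) hinj]
  refine Set.ncard_lt_ncard ?_ (hfin n (s + 1) hn)
  refine ⟨?_, ?_⟩
  · rintro _ ⟨a, ha, rfl⟩
    exact term_mem hn ha
  · intro hsub
    obtain ⟨a, ha, hab⟩ := hsub hmem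
    have hax : a = x := by
      funext i
      have := congrFun hab (Fin.castSucc i)
      simpa only [Fin.snoc_castSucc] using this
    have hlast := congrFun hab (Fin.last s)
    simp only [Fin.snoc_last] at hlast
    rw [hax, h3] at hlast
    omega

end Pool.Agent.Helper2.EG
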